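import Pool.Agent.U946.MV2.A4

set_option autoImplicit false

namespace Pool.Agent.U946.MV2

open MeasureTheory Filter Topology Set
open scoped ENNReal

noncomputable section

/-- the distance between `s - K (K s)` and `A` -/
lemma D2 {C1 T L : ℝ} (hC1 : 1 ≤ C1) (hL : 2 ≤ L) (hT : 100 ≤ T) (hLT : L ^ 3 ≤ T)
    {g A : ℝ → ℝ} (hg : MemLp g 2 volume) (hg1 : Integrable g)
    (hg4 : Integrable (fun t => g t ^ 4)) (hQ : (∫ t, g t ^ 4) ≤ C1 * (T * L))
    (hA : ∀ᵐ t : ℝ, T + 3 ≤ t → t ≤ 2 * T - 3 →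
      |g t - (∫ y in (-1 : ℝ)..1, (1 - |y|) * g (t - y)) - A t| ≤ C1 / T)
    (hAm : MemLp A 2 volume) (hAb : ∀ t, |A t| ≤ C1 * L)
    (hA0 : ∀ t, t < T - 2 ∨ 2 * T + 2 < t → A t = 0) :
    L * (∫ t, ((Icc T (2 * T)).indicator g t - K (K ((Icc T (2 * T)).indicator g)) t - A t) ^ 2) ≤
      230 * C1 ^ 2 * T := by
  set s := (Icc T (2 * T)).indicator g with hs
  have hsm : MemLp s 2 volume := hg.indicator measurableSet_Icc
  have hs1 : Integrable s := hg1.indicator measurableSet_Icc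
  have hsg0 : ∀ t, s t ^ 2 ≤ g t ^ 2 := by
    intro t
    by_cases ht : t ∈ Icc T (2 * T)
    · rw [hs, indicator_of_mem ht]
    · rw [hs, indicator_of_notMem ht]
      nlinarith [sq_nonneg (g t)]
  have hsg : ∀ a b : ℝ, (∫ t in Icc a b, s t ^ 2) ≤ ∫ t in Icc a b, g t ^ 2 := fun a b =>
    setIntegral_mono hsm.integrable_sq.integrableOn hg.integrable_sq.integrableOn hsg0
  have hLpos : 0 < L := by linarith
  have hδ : 0 < 1 / L ^ 2 := by positivity
  set η : ℝ := (C1 * T / L + 8 * L ^ 2) / 2 with hη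
  have hη0 : 0 ≤ η := by positivity
  have hsmall : ∀ a b : ℝ, a ≤ b → b ≤ a + 8 → (∫ t in Icc a b, g t ^ 2) ≤ η := by
    intro a b hab hab'
    refine (small hg hg4 hQ hab hδ).trans ?_
    have : (1 / L ^ 2 * (C1 * (T * L)) + (b - a) / (1 / L ^ 2)) / 2 =
        (C1 * T / L + (b - a) * L ^ 2) / 2 := by
      field_simp
    rw [this, hη]
    have : (b - a) * L ^ 2 ≤ 8 * L ^ 2 := by
      apply mul_le_mul_of_nonneg_right _ (by positivity)
      linarith
    linarith
  have hF := K_memLp hsm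
  have hb := K_memLp hF.1
  have hd : MemLp (fun t => s t - K (K s) t - A t) 2 volume := (hsm.sub hb.1).sub hAm
  set c : ℝ := 3 * η + 3 * (C1 * L) ^ 2 with hc
  have hc0 : 0 ≤ c := by positivity
  -- the function `b = K (K s)` near the ends
  have hbe : ∀ a t : ℝ, a - 3 ≤ t → t ≤ a + 3 → K (K s) t ^ 2 ≤ η := by
    intro a t h1 h2
    apply K_sq_bound hF.1
    intro y h3 h4
    refine (K_sq_bound' hsm (t := y) (a := a - 4) (b := a + 4) (by linarith) (by linarith)).trans ?_
    exact (hsg _ _).trans (hsmall _ _ (by linarith) (by linarith))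
  have hedge : ∀ a t : ℝ, a - 3 ≤ t → t ≤ a + 3 →
      (s t - K (K s) t - A t) ^ 2 ≤ 3 * g t ^ 2 + c := by
    intro a t h1 h2
    have k1 := hbe a t h1 h2
    have k2 := hsg0 t
    have k3 : A t ^ 2 ≤ (C1 * L) ^ 2 := by
      rw [← sq_abs (A t)]
      exact pow_le_pow_left₀ (abs_nonneg _) (hAb t) 2
    have k4 : (s t - K (K s) t - A t) ^ 2 ≤ 3 * s t ^ 2 + 3 * K (K s) t ^ 2 + 3 * A t ^ 2 := by
      nlinarith [sq_nonneg (s t + K (K s) t), sq_nonneg (s t + A t), sq_nonneg (K (K s) t - A t)]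
    rw [hc]
    linarith
  have hle : ∀ᵐ t : ℝ, (s t - K (K s) t - A t) ^ 2 ≤
      (Icc T (2 * T)).indicator (fun _ => (C1 / T) ^ 2) t +
      (Icc (T - 3) (T + 3)).indicator (fun t => 3 * g t ^ 2 + c) t +
      (Icc (2 * T - 3) (2 * T + 3)).indicator (fun t => 3 * g t ^ 2 + c) t := by
    filter_upwards [hA] with t hAt
    have n1 : 0 ≤ (Icc T (2 * T)).indicator (fun _ => (C1 / T) ^ 2) t :=
      indicator_nonneg (fun _ _ => sq_nonneg _) _
    have n2 : 0 ≤ (Icc (T - 3) (T + 3)).indicator (fun t => 3 * g t ^ 2 + c) t :=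
      indicator_nonneg (fun _ _ => by positivity) _
    have n3 : 0 ≤ (Icc (2 * T - 3) (2 * T + 3)).indicator (fun t => 3 * g t ^ 2 + c) t :=
      indicator_nonneg (fun _ _ => by positivity) _
    rcases lt_or_ge t (T - 3) with h1 | h1
    · have k1 : K (K s) t = 0 := K_zero fun y _ hy => K_zero fun z _ hz => by
        rw [hs, indicator_of_notMem]
        exact fun h => by linarith [h.1]
      have k2 : s t = 0 := by
        rw [hs, indicator_of_notMem]
        exact fun h => by linarith [h.1]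
      rw [k1, k2, hA0 t (Or.inl (by linarith))]
      have : ((0 : ℝ) - 0 - 0) ^ 2 = 0 := by norm_num
      rw [this]
      linarith
    rcases le_or_gt t (T + 3) with h2 | h2
    · have := hedge T t (by linarith) h2
      rw [indicator_of_mem (show t ∈ Icc (T - 3) (T + 3) from ⟨by linarith, by linarith⟩)]
      linarith
    rcases lt_or_ge t (2 * T - 3) with h3 | h3
    · have k1 : s t = g t := by
        rw [hs, indicator_of_mem]
        exact ⟨by linarith, by linarith⟩
      have k2 : K (K s) t = ∫ y in (-1 : ℝ)..1, (1 - |y|) * g (t - y) := by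
        rw [hat_eq hs1]
        apply intervalIntegral.integral_congr
        intro y hy
        rw [uIcc_of_le (by norm_num)] at hy
        change (1 - |y|) * s (t - y) = (1 - |y|) * g (t - y)
        rw [hs, indicator_of_mem]
        exact ⟨by linarith [hy.2], by linarith [hy.1]⟩
      have k3 := hAt (by linarith) h3.le
      rw [k1, k2, indicator_of_mem (show t ∈ Icc T (2 * T) from ⟨by linarith, by linarith⟩)]
      have k4 : (g t - (∫ y in (-1 : ℝ)..1, (1 - |y|) * g (t - y)) - A t) ^ 2 ≤ (C1 / T) ^ 2 := by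
        rw [← sq_abs]
        exact pow_le_pow_left₀ (abs_nonneg _) k3 2
      linarith
    rcases le_or_gt t (2 * T + 3) with h4 | h4
    · have := hedge (2 * T) t h3 h4
      rw [indicator_of_mem (show t ∈ Icc (2 * T - 3) (2 * T + 3) from ⟨by linarith, by linarith⟩)]
      linarith
    · have k1 : K (K s) t = 0 := K_zero fun y hy _ => K_zero fun z hz _ => by
        rw [hs, indicator_of_notMem]
        exact fun h => by linarith [h.2]
      have k2 : s t = 0 := by
        rw [hs, indicator_of_notMem]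
        exact fun h => by linarith [h.2]
      rw [k1, k2, hA0 t (Or.inr (by linarith))]
      have : ((0 : ℝ) - 0 - 0) ^ 2 = 0 := by norm_num
      rw [this]
      linarith
  have iE : ∀ a b : ℝ, IntegrableOn (fun t => 3 * g t ^ 2 + c) (Icc a b) := fun a b =>
    (hg.integrable_sq.integrableOn.const_mul 3).add (integrableOn_const (by simp) enorm_ne_top)
  have i1 : Integrable ((Icc T (2 * T)).indicator (fun _ => (C1 / T) ^ 2)) :=
    (integrable_indicator_iff measurableSet_Icc).2 (integrableOn_const (by simp) enorm_ne_top)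
  have i2 : Integrable ((Icc (T - 3) (T + 3)).indicator (fun t => 3 * g t ^ 2 + c)) :=
    (integrable_indicator_iff measurableSet_Icc).2 (iE _ _)
  have i3 : Integrable ((Icc (2 * T - 3) (2 * T + 3)).indicator (fun t => 3 * g t ^ 2 + c)) :=
    (integrable_indicator_iff measurableSet_Icc).2 (iE _ _)
  have h1 := integral_mono_ae hd.integrable_sq ((i1.add i2).add i3) hle
  have vE : ∀ a : ℝ, (∫ t in Icc (a - 3) (a + 3), (3 * g t ^ 2 + c)) ≤ 3 * η + 6 * c := by
    intro a
    rw [integral_add (hg.integrable_sq.integrableOn.const_mul 3)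
      (integrableOn_const (by simp) enorm_ne_top), integral_const_mul, setIntegral_const,
      Measure.real, Real.volume_Icc, ENNReal.toReal_ofReal (by linarith)]
    have := hsmall (a - 3) (a + 3) (by linarith) (by linarith)
    simp only [smul_eq_mul]
    nlinarith
  have h2 : (∫ t, (Icc T (2 * T)).indicator (fun _ => (C1 / T) ^ 2) t) +
      (∫ t, (Icc (T - 3) (T + 3)).indicator (fun t => 3 * g t ^ 2 + c) t) +
      (∫ t, (Icc (2 * T - 3) (2 * T + 3)).indicator (fun t => 3 * g t ^ 2 + c) t) ≤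
      T * (C1 / T) ^ 2 + (3 * η + 6 * c) + (3 * η + 6 * c) := by
    rw [integral_indicator measurableSet_Icc,
      integral_indicator measurableSet_Icc, integral_indicator measurableSet_Icc, setIntegral_const,
      Measure.real, Real.volume_Icc, ENNReal.toReal_ofReal (by linarith)]
    have := vE T
    have := vE (2 * T)
    simp only [smul_eq_mul]
    nlinarith
  rw [integral_add' (i1.add i2) i3, integral_add' i1 i2] at h1
  have h3 : (∫ t, (s t - K (K s) t - A t) ^ 2) ≤ T * (C1 / T) ^ 2 + (3 * η + 6 * c) +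
      (3 * η + 6 * c) := h1.trans h2
  have h4 : L * (∫ t, (s t - K (K s) t - A t) ^ 2) ≤ L * (T * (C1 / T) ^ 2 + (3 * η + 6 * c) +
      (3 * η + 6 * c)) := by gcongr
  refine h4.trans ?_
  have h5 : L * (T * (C1 / T) ^ 2 + (3 * η + 6 * c) + (3 * η + 6 * c)) =
      C1 ^ 2 * (L / T) + 21 * (C1 * T) + 168 * L ^ 3 + 36 * (C1 ^ 2 * L ^ 3) := by
    rw [hc, hη]
    field_simp
    ring
  rw [h5]
  have h6 : L / T ≤ 1 := by
    rw [div_le_one (by linarith)]
    nlinarith [mul_pos hLpos hLpos]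
  have h7 : C1 * T ≤ C1 ^ 2 * T := by
    have : C1 ≤ C1 ^ 2 := by nlinarith
    gcongr
  have h8 : L ^ 3 ≤ C1 ^ 2 * T := by
    have : 1 ≤ C1 ^ 2 := by nlinarith
    nlinarith
  have h9 : C1 ^ 2 * L ^ 3 ≤ C1 ^ 2 * T := by gcongr
  have h10 : C1 ^ 2 * (L / T) ≤ C1 ^ 2 * T := by
    gcongr
    linarith
  have p0 : 0 ≤ C1 ^ 2 * T := by positivity
  linarith

theorem core {C1 T L h m : ℝ} (hC1 : 1 ≤ C1) (hL : 2 ≤ L) (hT : 100 ≤ T) (hLT : L ^ 3 ≤ T)
    (h0 : 0 ≤ h) (hh : h ≤ T / L ^ 2) {g A : ℝ → ℝ} (hg : MemLp g 2 volume) (hg1 : Integrable g)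
    (hg4 : Integrable (fun t => g t ^ 4)) (hQ : (∫ t, g t ^ 4) ≤ C1 * (T * L))
    (hG : (∫ t in T..(2 * T), K g t ^ 2) ≤ C1 * T)
    (hA : ∀ᵐ t : ℝ, T + 3 ≤ t → t ≤ 2 * T - 3 →
      |g t - (∫ y in (-1 : ℝ)..1, (1 - |y|) * g (t - y)) - A t| ≤ C1 / T)
    (hAm : Measurable A) (hAb : ∀ t, |A t| ≤ C1 * L)
    (hA0 : ∀ t, t < T - 2 ∨ 2 * T + 2 < t → A t = 0)
    (hA2 : (∫ t, A t ^ 2) ≤ C1 * (T * L))
    (hAA : |(∫ t, A t * A (t + h)) - T * m| ≤ C1 * T) :
    |(∫ t in T..(2 * T), g t * g (t + h)) - T * m| ≤ 400 * C1 ^ 2 * T := by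
  have hAp : MemLp A 2 volume := memLp_of_bdd hAm hAb hA0
  have d0 := D0 hC1 hL hT h0 hh hg hg4 hQ
  have d1 := D1 hC1 hL hT hLT hg hg4 hQ hG
  have d2 := D2 hC1 hL hT hLT hg hg1 hg4 hQ hA hAp hAb hA0
  set s := (Icc T (2 * T)).indicator g with hs
  have hsm : MemLp s 2 volume := hg.indicator measurableSet_Icc
  have hF := K_memLp hsm
  have hb := K_memLp hF.1
  have ha : MemLp (fun t => s t - K (K s) t) 2 volume := hsm.sub hb.1
  have hLpos : 0 < L := by linarith
  have b1 := B1 hsm h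
  have b2 := B2 ha hAp h hLpos
  set N := ∫ t, (s t - K (K s) t - A t) ^ 2 with hN
  have hN0 : 0 ≤ N := integral_nonneg fun t => sq_nonneg _
  have c1 : (3 * (∫ t, A t ^ 2) + 2 * N) / (2 * L) ≤ 2 * C1 * T + N := by
    rw [div_le_iff₀ (by positivity)]
    have : (2 * C1 * T + N) * (2 * L) = 4 * (C1 * (T * L)) + 2 * L * N := by ring
    rw [this]
    have e1 : 0 ≤ C1 * (T * L) := by positivity
    nlinarith
  have c2 : N ≤ L * N := by nlinarith
  have c3 : C1 * T ≤ C1 ^ 2 * T := by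
    have : C1 ≤ C1 ^ 2 := by nlinarith
    have hT0 : 0 ≤ T := by linarith
    gcongr
  have c4 : 230 * C1 ^ 2 * T = 230 * (C1 ^ 2 * T) := by ring
  have c6 : 2 * N ≤ L * N := by nlinarith
  have c5 : 400 * C1 ^ 2 * T = 400 * (C1 ^ 2 * T) := by ring
  rw [c4] at d2
  rw [c5]
  have := abs_le.1 d0
  have := abs_le.1 b1
  have := abs_le.1 b2
  have := abs_le.1 hAA
  have p0 : 0 ≤ C1 ^ 2 * T := by positivity
  rw [abs_le]
  constructor <;> linarith

end

end Pool.Agent.U946.MV2
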