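import Pool.Agent.U398.MV.Stm2
import Pool.Agent.U946.MV2.A5

/-!
# Project MV2, package AB
-/

set_option autoImplicit false

namespace Pool.Agent.U946.MV2

open MeasureTheory Filter Topology Set
open scoped ENNReal

theorem t_AB : Pool.Agent.U398.MV.S_AB := by
  intro C1 hC1
  have hev : ∀ᶠ T : ℝ in atTop, 100 ≤ T ∧ 2 ≤ Real.log T ∧ Real.log T ^ 3 ≤ T := by
    have h1 : ∀ᶠ T : ℝ in atTop, (2 : ℝ) ≤ Real.log T :=
      Real.tendsto_log_atTop.eventually_ge_atTop 2
    have h2 := (Real.isLittleO_pow_log_id_atTop (n := 3)).bound (c := 1) one_pos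
    filter_upwards [h1, h2, eventually_ge_atTop (100 : ℝ)] with T h1 h2 h3
    refine ⟨h3, h1, ?_⟩
    rw [Real.norm_of_nonneg (by positivity), id, Real.norm_of_nonneg (by linarith), one_mul] at h2
    exact h2
  obtain ⟨T0, hT0⟩ := eventually_atTop.1 hev
  refine ⟨400 * C1 ^ 2, T0, by positivity, ?_⟩
  intro T hT h h0 hh σ A m hσ hσ4 hQ hG hA hAm hAb hA0 hA2 hAA
  obtain ⟨h100, hL, hLT⟩ := hT0 T hT
  set g := (Icc (T / 2) (3 * T)).indicator σ with hg
  have hmem : ∀ t : ℝ, T - 1 ≤ t → t ≤ 3 * T → g t = σ t := fun t h1 h2 => by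
    rw [hg, indicator_of_mem]
    exact ⟨by linarith, h2⟩
  have hσ2 : IntegrableOn (fun t => σ t ^ 2) (Icc (T / 2) (3 * T)) := by
    have h1 : IntegrableOn (fun t => (σ t ^ 4 + 1) / 2) (Icc (T / 2) (3 * T)) :=
      (hσ4.add (integrableOn_const (by simp) enorm_ne_top)).div_const 2
    refine Integrable.mono h1 (hσ.restrict.pow 2) (ae_of_all _ fun t => ?_)
    rw [Real.norm_of_nonneg (sq_nonneg _), Real.norm_of_nonneg (by positivity)]
    nlinarith [sq_nonneg (σ t ^ 2 - 1)]
  have hσm : MemLp σ 2 (volume.restrict (Icc (T / 2) (3 * T))) :=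
    (memLp_two_iff_integrable_sq hσ.restrict).2 hσ2
  have hgm : MemLp g 2 volume := (memLp_indicator_iff_restrict measurableSet_Icc).2 hσm
  have hg1 : Integrable g :=
    (integrable_indicator_iff measurableSet_Icc).2 (hσm.integrable (by norm_num))
  have hpow : (fun t => g t ^ 4) = (Icc (T / 2) (3 * T)).indicator (fun t => σ t ^ 4) := by
    ext t
    by_cases ht : t ∈ Icc (T / 2) (3 * T)
    · rw [hg, indicator_of_mem ht, indicator_of_mem ht]
    · rw [hg, indicator_of_notMem ht, indicator_of_notMem ht]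
      norm_num
  have hg4 : Integrable (fun t => g t ^ 4) := by
    rw [hpow]
    exact (integrable_indicator_iff measurableSet_Icc).2 hσ4
  have hQ' : (∫ t, g t ^ 4) ≤ C1 * (T * Real.log T) := by
    rw [hpow, integral_indicator measurableSet_Icc, integral_Icc_eq_integral_Ioc,
      ← intervalIntegral.integral_of_le (by linarith)]
    exact hQ
  have hG' : (∫ t in T..(2 * T), K g t ^ 2) ≤ C1 * T := by
    refine le_of_eq_of_le ?_ hG
    apply intervalIntegral.integral_congr
    intro t ht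
    rw [uIcc_of_le (by linarith)] at ht
    change K g t ^ 2 = K σ t ^ 2
    rw [K_congr (g := σ)]
    intro y h1 h2
    exact hmem y (by linarith [ht.1]) (by linarith [ht.2])
  have hA' : ∀ᵐ t : ℝ, T + 3 ≤ t → t ≤ 2 * T - 3 →
      |g t - (∫ y in (-1 : ℝ)..1, (1 - |y|) * g (t - y)) - A t| ≤ C1 / T := by
    filter_upwards [hA] with t h1 h2 h3
    have e1 : (∫ y in (-1 : ℝ)..1, (1 - |y|) * g (t - y)) =
        ∫ y in (-1 : ℝ)..1, (1 - |y|) * σ (t - y) := by
      apply intervalIntegral.integral_congr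
      intro y hy
      rw [uIcc_of_le (by norm_num)] at hy
      change (1 - |y|) * g (t - y) = (1 - |y|) * σ (t - y)
      rw [hmem _ (by linarith [hy.2]) (by linarith [hy.1])]
    rw [e1, hmem t (by linarith) (by linarith)]
    exact h1 h2 h3
  have hfin := core (m := m) hC1 hL h100 hLT h0 hh hgm hg1 hg4 hQ' hG' hA' hAm hAb hA0 hA2 hAA
  have hhT : h ≤ T / 4 := by
    refine hh.trans ?_
    have h4 : (4 : ℝ) ≤ Real.log T ^ 2 := by nlinarith
    exact div_le_div_of_nonneg_left (by linarith) (by norm_num) h4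
  have e2 : (∫ t in T..(2 * T), σ t * σ (t + h)) = ∫ t in T..(2 * T), g t * g (t + h) := by
    apply intervalIntegral.integral_congr
    intro t ht
    rw [uIcc_of_le (by linarith)] at ht
    change σ t * σ (t + h) = g t * g (t + h)
    rw [hmem t (by linarith [ht.1]) (by linarith [ht.2]),
      hmem (t + h) (by linarith [ht.1]) (by linarith [ht.2])]
  rw [e2]
  exact hfin

end Pool.Agent.U946.MV2
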