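import Mathlib

/-!
# The box average on `L²(ℝ)`

`K f t = ∫_{t-1/2}^{t+1/2} f`.  It is self-adjoint and contracting on `L²(ℝ)`, and `K (K f)` is the
convolution with the hat function.
-/

set_option autoImplicit false

namespace Pool.Agent.U946.MV2

open MeasureTheory Filter Topology Set
open scoped ENNReal

noncomputable section

/-- box average -/
def K (f : ℝ → ℝ) (t : ℝ) : ℝ := ∫ y in (t - 1 / 2)..(t + 1 / 2), f y

/-- the box -/
def nu : Measure ℝ := volume.restrict (Ioc (-(1 / 2 : ℝ)) (1 / 2))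

instance : IsProbabilityMeasure nu := ⟨by
  unfold nu
  rw [Measure.restrict_apply_univ, Real.volume_Ioc]
  norm_num⟩

lemma K_eq (f : ℝ → ℝ) (t : ℝ) : K f t = ∫ y, f (t - y) ∂nu := by
  unfold K nu
  have h := intervalIntegral.integral_comp_sub_left (a := -(1 / 2 : ℝ)) (b := 1 / 2) f t
  rw [← intervalIntegral.integral_of_le (by norm_num), h]
  congr 1
  ring

lemma memLp_sub {f : ℝ → ℝ} (hf : MemLp f 2 volume) :
    MemLp (fun z : ℝ × ℝ => f (z.1 - z.2)) 2 (volume.prod nu) :=
  (MemLp.comp_fst hf nu).comp_measurePreserving (measurePreserving_sub_prod volume nu)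

lemma integrable_sub {f : ℝ → ℝ} (hf : Integrable f volume) :
    Integrable (fun z : ℝ × ℝ => f (z.1 - z.2)) (volume.prod nu) := by
  have h1 : MemLp f 1 volume := memLp_one_iff_integrable.2 hf
  exact memLp_one_iff_integrable.1
    ((MemLp.comp_fst h1 nu).comp_measurePreserving (measurePreserving_sub_prod volume nu))

lemma memLp_shift {f : ℝ → ℝ} (hf : MemLp f 2 volume) (h : ℝ) :
    MemLp (fun t => f (t + h)) 2 volume :=
  hf.comp_measurePreserving (measurePreserving_add_right volume h)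

lemma memLp_fib {f : ℝ → ℝ} (hf : MemLp f 2 volume) (t : ℝ) :
    MemLp (fun y => f (t - y)) 2 nu :=
  (hf.comp_measurePreserving (Measure.measurePreserving_sub_left volume t)).restrict _

lemma K_sq_le {f : ℝ → ℝ} (hf : MemLp f 2 volume) (t : ℝ) :
    K f t ^ 2 ≤ ∫ y, f (t - y) ^ 2 ∂nu := by
  have hg := memLp_fib hf t
  have h1 : Integrable (fun y => f (t - y)) nu := hg.integrable (by norm_num)
  have h2 : Integrable (fun y => f (t - y) ^ 2) nu := hg.integrable_sq
  rw [K_eq]
  set c := ∫ y, f (t - y) ∂nu with hc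
  have h3 : 0 ≤ ∫ y, (f (t - y) - c) ^ 2 ∂nu := integral_nonneg fun y => sq_nonneg _
  have h4 : ∫ y, (f (t - y) - c) ^ 2 ∂nu = (∫ y, f (t - y) ^ 2 ∂nu) - 2 * c * c + c ^ 2 := by
    have : ∀ y, (f (t - y) - c) ^ 2 = f (t - y) ^ 2 - 2 * c * f (t - y) + c ^ 2 := fun y => by ring
    have e1 : ∫ y, (f (t - y) ^ 2 - 2 * c * f (t - y) + c ^ 2) ∂nu =
        (∫ y, (f (t - y) ^ 2 - 2 * c * f (t - y)) ∂nu) + ∫ _y, c ^ 2 ∂nu :=
      integral_add (h2.sub (h1.const_mul (2 * c))) (integrable_const _)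
    have e2 : ∫ y, (f (t - y) ^ 2 - 2 * c * f (t - y)) ∂nu =
        (∫ y, f (t - y) ^ 2 ∂nu) - ∫ y, 2 * c * f (t - y) ∂nu :=
      integral_sub h2 (h1.const_mul (2 * c))
    simp_rw [this]
    rw [e1, e2, integral_const_mul, ← hc]
    simp
  nlinarith

lemma K_memLp {f : ℝ → ℝ} (hf : MemLp f 2 volume) :
    MemLp (K f) 2 volume ∧ ∫ t, K f t ^ 2 ≤ ∫ t, f t ^ 2 := by
  have h1 := memLp_sub hf
  have h2 : Integrable (fun z : ℝ × ℝ => f (z.1 - z.2) ^ 2) (volume.prod nu) := h1.integrable_sq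
  have h3 : Integrable (fun t => ∫ y, f (t - y) ^ 2 ∂nu) volume := h2.integral_prod_left
  have hm : AEStronglyMeasurable (K f) volume := by
    have : K f = fun t => ∫ y, f (t - y) ∂nu := by
      ext t
      exact K_eq f t
    rw [this]
    exact h1.1.integral_prod_right'
  have h4 : Integrable (fun t => K f t ^ 2) volume := by
    refine h3.mono (hm.pow 2) (ae_of_all _ fun t => ?_)
    rw [Real.norm_of_nonneg (sq_nonneg _),
      Real.norm_of_nonneg (integral_nonneg fun y => sq_nonneg _)]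
    exact K_sq_le hf t
  refine ⟨(memLp_two_iff_integrable_sq hm).2 h4, ?_⟩
  calc ∫ t, K f t ^ 2 ≤ ∫ t, ∫ y, f (t - y) ^ 2 ∂nu := integral_mono h4 h3 fun t => K_sq_le hf t
    _ = ∫ y, (∫ t, f (t - y) ^ 2) ∂nu := by
      exact integral_integral_swap (f := fun t y => f (t - y) ^ 2) h2
    _ = ∫ y, (∫ t, f t ^ 2) ∂nu := by
      congr 1
      ext y
      exact integral_sub_right_eq_self (fun t => f t ^ 2) y
    _ = ∫ t, f t ^ 2 := by simp

/-- `K` is self-adjoint -/
lemma K_adj {f g : ℝ → ℝ} (hf : MemLp f 2 volume) (hg : MemLp g 2 volume) :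
    ∫ t, K f t * g t = ∫ t, f t * K g t := by
  have e1 : ∀ {f g : ℝ → ℝ}, MemLp f 2 volume → MemLp g 2 volume →
      ∫ t, K f t * g t = ∫ y, (∫ t, f (t - y) * g t) ∂nu := by
    intro f g hf hg
    have h1 : Integrable (fun z : ℝ × ℝ => f (z.1 - z.2) * g z.1) (volume.prod nu) :=
      (memLp_sub hf).integrable_mul (MemLp.comp_fst hg nu)
    calc ∫ t, K f t * g t = ∫ t, ∫ y, f (t - y) * g t ∂nu := by
          congr 1
          ext t
          rw [K_eq, integral_mul_const]
      _ = ∫ y, (∫ t, f (t - y) * g t) ∂nu :=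
          integral_integral_swap (f := fun t y => f (t - y) * g t) h1
  rw [e1 hf hg]
  have e2 : ∫ t, f t * K g t = ∫ y, (∫ t, g (t - y) * f t) ∂nu := by
    rw [← e1 hg hf]
    congr 1
    ext t
    ring
  rw [e2]
  have e3 : ∀ y : ℝ, ∫ t, f (t - y) * g t = ∫ t, g (t - (-y)) * f t := by
    intro y
    have := integral_sub_right_eq_self (fun t => f t * g (t + y)) y (μ := volume)
    rw [show (∫ t, g (t - (-y)) * f t) = ∫ t, f t * g (t + y) from by
      congr 1; ext t; rw [sub_neg_eq_add]; ring]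
    rw [← this]
    congr 1
    ext t
    rw [sub_add_cancel]
  simp_rw [e3]
  unfold nu
  rw [← intervalIntegral.integral_of_le (by norm_num), ← intervalIntegral.integral_of_le (by norm_num),
    intervalIntegral.integral_comp_neg (fun y => ∫ t, g (t - y) * f t)]
  norm_num

lemma K_shift (f : ℝ → ℝ) (h t : ℝ) : K f (t + h) = K (fun u => f (u + h)) t := by
  unfold K
  rw [intervalIntegral.integral_comp_add_right]
  congr 1 <;> ring

end

end Pool.Agent.U946.MV2
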