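import Pool.Agent.U946.MV2.A1

set_option autoImplicit false

namespace Pool.Agent.U946.MV2

open MeasureTheory Filter Topology Set
open scoped ENNReal

noncomputable section

lemma nu_box (w : ℝ) : (∫ y, (Ioc (y - 1 / 2) (y + 1 / 2)).indicator (fun _ => (1 : ℝ)) w ∂nu) =
    max 0 (1 - |w|) := by
  set a := max (-(1 / 2 : ℝ)) (w - 1 / 2) with ha
  set b := min (1 / 2 : ℝ) (w + 1 / 2) with hb
  have hab : b - a = 1 - |w| := by
    rcases le_total 0 w with h | h
    · rw [ha, hb, abs_of_nonneg h, max_eq_right (by linarith), min_eq_left (by linarith)]; ring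
    · rw [ha, hb, abs_of_nonpos h, max_eq_left (by linarith), min_eq_right (by linarith)]; ring
  set S : Set ℝ := {y | w ∈ Ioc (y - 1 / 2) (y + 1 / 2)} with hS
  have hS' : S = Ico (w - 1 / 2) (w + 1 / 2) := by
    ext y
    constructor <;> rintro ⟨h1, h2⟩ <;> constructor <;> linarith
  have hSm : MeasurableSet S := hS' ▸ measurableSet_Ico
  have h1 : ∀ y, (Ioc (y - 1 / 2) (y + 1 / 2)).indicator (fun _ => (1 : ℝ)) w =
      S.indicator (fun _ => (1 : ℝ)) y := by
    intro y
    by_cases hy : w ∈ Ioc (y - 1 / 2) (y + 1 / 2)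
    · rw [indicator_of_mem hy, indicator_of_mem (show y ∈ S from hy)]
    · rw [indicator_of_notMem hy, indicator_of_notMem (show y ∉ S from hy)]
  simp_rw [h1]
  rw [integral_indicator hSm, setIntegral_const, smul_eq_mul, mul_one]
  have h2 : nu S = ENNReal.ofReal (b - a) := by
    unfold nu
    rw [Measure.restrict_apply hSm, hS']
    apply le_antisymm
    · rw [← Real.volume_Icc]
      apply measure_mono
      rintro y ⟨⟨h1, h2⟩, h3, h4⟩
      exact ⟨max_le h3.le h1, le_min h4 h2.le⟩
    · rw [← Real.volume_Ioo]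
      apply measure_mono
      rintro y ⟨h1, h2⟩
      have h3 := max_lt_iff.1 h1
      have h4 := lt_min_iff.1 h2
      exact ⟨⟨h3.2.le, h4.2⟩, h3.1, h4.1.le⟩
  rw [Measure.real, h2, hab, ENNReal.toReal_ofReal']
  exact max_comm _ _

lemma hat_aux {g : ℝ → ℝ} (hg : Integrable g volume) :
    (∫ y, (∫ w, (Ioc (y - 1 / 2) (y + 1 / 2)).indicator g w) ∂nu) =
      ∫ w in (-1 : ℝ)..1, (1 - |w|) * g w := by
  set S : Set (ℝ × ℝ) := {z | z.1 - 1 / 2 < z.2 ∧ z.2 ≤ z.1 + 1 / 2} with hS
  have hSm : MeasurableSet S := by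
    apply MeasurableSet.inter
    · exact measurableSet_lt (measurable_fst.sub_const (1 / 2)) measurable_snd
    · exact measurableSet_le measurable_snd (measurable_fst.add_const (1 / 2))
  have h0 : Integrable (fun z : ℝ × ℝ => g z.2) (nu.prod volume) := by
    have h1 : MemLp g 1 volume := memLp_one_iff_integrable.2 hg
    exact memLp_one_iff_integrable.1 (h1.comp_snd nu)
  have h1 : Integrable (S.indicator fun z : ℝ × ℝ => g z.2) (nu.prod volume) := h0.indicator hSm
  have e1 : ∀ y w, S.indicator (fun z : ℝ × ℝ => g z.2) (y, w) =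
      (Ioc (y - 1 / 2) (y + 1 / 2)).indicator g w := by
    intro y w
    by_cases hy : (y, w) ∈ S
    · rw [indicator_of_mem hy, indicator_of_mem (show w ∈ Ioc (y - 1 / 2) (y + 1 / 2) from hy)]
    · rw [indicator_of_notMem hy,
        indicator_of_notMem (show w ∉ Ioc (y - 1 / 2) (y + 1 / 2) from hy)]
  have h2 := integral_integral_swap (μ := nu) (ν := (volume : Measure ℝ))
    (f := fun y w => (Ioc (y - 1 / 2) (y + 1 / 2)).indicator g w) (by
      have : Function.uncurry (fun y w => (Ioc (y - 1 / 2) (y + 1 / 2)).indicator g w) =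
          S.indicator (fun z : ℝ × ℝ => g z.2) := by
        ext z
        exact (e1 z.1 z.2).symm
      rw [this]
      exact h1)
  rw [h2]
  have e2 : ∀ w, (∫ y, (Ioc (y - 1 / 2) (y + 1 / 2)).indicator g w ∂nu) =
      max 0 (1 - |w|) * g w := by
    intro w
    have : ∀ y, (Ioc (y - 1 / 2) (y + 1 / 2)).indicator g w =
        (Ioc (y - 1 / 2) (y + 1 / 2)).indicator (fun _ => (1 : ℝ)) w * g w := by
      intro y
      by_cases hy : w ∈ Ioc (y - 1 / 2) (y + 1 / 2)
      · rw [indicator_of_mem hy, indicator_of_mem hy, one_mul]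
      · rw [indicator_of_notMem hy, indicator_of_notMem hy, zero_mul]
    simp_rw [this]
    rw [integral_mul_const, nu_box]
  simp_rw [e2]
  rw [intervalIntegral.integral_of_le (by norm_num),
    ← setIntegral_eq_integral_of_forall_compl_eq_zero (s := Ioc (-1 : ℝ) 1)]
  · apply setIntegral_congr_fun measurableSet_Ioc
    intro w hw
    have : |w| ≤ 1 := abs_le.2 ⟨hw.1.le, hw.2⟩
    simp only
    rw [max_eq_right (by linarith)]
  · intro w hw
    have : 1 ≤ |w| := by
      by_contra h
      push Not at h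
      have := abs_lt.1 h
      exact hw ⟨this.1, this.2.le⟩
    rw [max_eq_left (by linarith), zero_mul]

/-- the hat function is the square of the box -/
lemma hat_eq {f : ℝ → ℝ} (hf : Integrable f volume) (t : ℝ) :
    K (K f) t = ∫ y in (-1 : ℝ)..1, (1 - |y|) * f (t - y) := by
  have hg : Integrable (fun y => f (t - y)) volume := hf.comp_sub_left t
  rw [← hat_aux hg, K_eq]
  congr 1
  ext y
  unfold K
  have h := intervalIntegral.integral_comp_sub_left (a := y - 1 / 2) (b := y + 1 / 2) f t
  have h' : (∫ w, (Ioc (y - 1 / 2) (y + 1 / 2)).indicator (fun w => f (t - w)) w) =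
      ∫ w in (y - 1 / 2)..(y + 1 / 2), f (t - w) := by
    rw [integral_indicator measurableSet_Ioc, intervalIntegral.integral_of_le (by linarith)]
  rw [h', h]
  congr 1 <;> ring

lemma K_congr {f g : ℝ → ℝ} {t : ℝ} (h : ∀ y, t - 1 / 2 < y → y ≤ t + 1 / 2 → f y = g y) :
    K f t = K g t := by
  unfold K
  rw [intervalIntegral.integral_of_le (by linarith), intervalIntegral.integral_of_le (by linarith)]
  exact setIntegral_congr_fun measurableSet_Ioc fun y hy => h y hy.1 hy.2

lemma K_zero {f : ℝ → ℝ} {t : ℝ} (h : ∀ y, t - 1 / 2 < y → y ≤ t + 1 / 2 → f y = 0) :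
    K f t = 0 := by
  rw [K_congr (g := fun _ => 0) h]
  simp [K]

lemma K_sub {f g : ℝ → ℝ} (hf : MemLp f 2 volume) (hg : MemLp g 2 volume) (t : ℝ) :
    K (fun u => f u - g u) t = K f t - K g t := by
  rw [K_eq, K_eq, K_eq]
  exact integral_sub ((memLp_fib hf t).integrable (by norm_num))
    ((memLp_fib hg t).integrable (by norm_num))

end

end Pool.Agent.U946.MV2
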