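import Pool.Agent.U946.MV2.A2

set_option autoImplicit false

namespace Pool.Agent.U946.MV2

open MeasureTheory Filter Topology Set
open scoped ENNReal

noncomputable section

lemma amgm {f g : ℝ → ℝ} (hf : MemLp f 2 volume) (hg : MemLp g 2 volume) {M : ℝ} (hM : 0 < M) :
    |∫ t, f t * g t| ≤ (M * (∫ t, f t ^ 2) + (∫ t, g t ^ 2) / M) / 2 := by
  have h1 := hf.integrable_sq
  have h2 := hg.integrable_sq
  have h3 : Integrable (fun t => (M * f t ^ 2 + g t ^ 2 / M) / 2) :=
    ((h1.const_mul M).add (h2.div_const M)).div_const 2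
  calc |∫ t, f t * g t| ≤ ∫ t, |f t * g t| := abs_integral_le_integral_abs
    _ ≤ ∫ t, (M * f t ^ 2 + g t ^ 2 / M) / 2 := by
        apply integral_mono_of_nonneg (ae_of_all _ fun t => abs_nonneg _) h3
        refine ae_of_all _ fun t => ?_
        change |f t * g t| ≤ (M * f t ^ 2 + g t ^ 2 / M) / 2
        rw [abs_mul]
        have h4 : M * f t ^ 2 + g t ^ 2 / M - 2 * (|f t| * |g t|) = (M * |f t| - |g t|) ^ 2 / M := by
          rw [← sq_abs (f t), ← sq_abs (g t)]
          field_simp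
          ring
        have h5 : 0 ≤ (M * |f t| - |g t|) ^ 2 / M := by positivity
        linarith
    _ = (M * (∫ t, f t ^ 2) + (∫ t, g t ^ 2) / M) / 2 := by
        rw [integral_div]
        congr 1
        rw [← integral_const_mul, ← integral_div]
        exact integral_add (h1.const_mul M) (h2.div_const M)

lemma sq_shift (f : ℝ → ℝ) (h : ℝ) : ∫ t, f (t + h) ^ 2 = ∫ t, f t ^ 2 :=
  integral_add_right_eq_self (fun t => f t ^ 2) h

lemma corr_le {f : ℝ → ℝ} (hf : MemLp f 2 volume) (h : ℝ) :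
    |∫ t, f t * f (t + h)| ≤ ∫ t, f t ^ 2 := by
  have := amgm hf (memLp_shift hf h) one_pos
  rw [sq_shift] at this
  linarith

/-- correlations of `s` and of `s - K (K s)` -/
lemma B1 {s : ℝ → ℝ} (hs : MemLp s 2 volume) (h : ℝ) :
    |(∫ t, s t * s (t + h)) - ∫ t, (s t - K (K s) t) * (s (t + h) - K (K s) (t + h))| ≤
      3 * ∫ t, K s t ^ 2 := by
  have hF := K_memLp hs
  have hb := K_memLp hF.1
  have hsh := memLp_shift hs h
  have hbh := memLp_shift hb.1 h
  have hFh := memLp_shift hF.1 h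
  have i1 := hs.integrable_mul hsh
  have i2 := hs.integrable_mul hbh
  have i3 := hb.1.integrable_mul hsh
  have i4 := hb.1.integrable_mul hbh
  have e0 : (∫ t, s t * s (t + h)) - (∫ t, (s t - K (K s) t) * (s (t + h) - K (K s) (t + h))) =
      (∫ t, s t * K (K s) (t + h)) + (∫ t, K (K s) t * s (t + h)) -
        ∫ t, K (K s) t * K (K s) (t + h) := by
    have a1 : (∫ t, s t * K (K s) (t + h)) + (∫ t, K (K s) t * s (t + h)) =
        ∫ t, (s t * K (K s) (t + h) + K (K s) t * s (t + h)) := (integral_add i2 i3).symm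
    have a2 : (∫ t, (s t * K (K s) (t + h) + K (K s) t * s (t + h))) -
        (∫ t, K (K s) t * K (K s) (t + h)) = ∫ t, ((s t * K (K s) (t + h) + K (K s) t * s (t + h)) -
          K (K s) t * K (K s) (t + h)) := (integral_sub (i2.add i3) i4).symm
    have i5 : Integrable (fun t => (s t - K (K s) t) * (s (t + h) - K (K s) (t + h))) :=
      (hs.sub hb.1).integrable_mul (hsh.sub hbh)
    have i6 : Integrable (fun t => (s t * K (K s) (t + h) + K (K s) t * s (t + h)) -
          K (K s) t * K (K s) (t + h)) := (i2.add i3).sub i4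
    rw [a1, a2, sub_eq_iff_eq_add, ← integral_add i6 i5]
    congr 1
    ext t
    ring
  have e1 : (∫ t, s t * K (K s) (t + h)) = ∫ t, K s t * K s (t + h) := by
    have : ∀ t, K (K s) (t + h) = K (fun u => K s (u + h)) t := fun t => K_shift _ _ _
    simp_rw [this]
    exact (K_adj hs hFh).symm
  have e2 : (∫ t, K (K s) t * s (t + h)) = ∫ t, K s t * K s (t + h) := by
    rw [K_adj hF.1 hsh]
    congr 1
    ext t
    rw [K_shift]
  have b1 := corr_le hF.1 h
  have b2 := corr_le hb.1 h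
  rw [e0, e1, e2]
  have b3 := hb.2
  have := abs_le.1 b1
  have := abs_le.1 b2
  rw [abs_le]
  constructor <;> linarith

/-- correlations of two close functions -/
lemma B2 {a A : ℝ → ℝ} (ha : MemLp a 2 volume) (hA : MemLp A 2 volume) (h : ℝ) {M : ℝ}
    (hM : 0 < M) :
    |(∫ t, a t * a (t + h)) - ∫ t, A t * A (t + h)| ≤
      M * (∫ t, (a t - A t) ^ 2) + (3 * (∫ t, A t ^ 2) + 2 * ∫ t, (a t - A t) ^ 2) / (2 * M) := by
  have hd : MemLp (fun t => a t - A t) 2 volume := ha.sub hA
  have hah := memLp_shift ha h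
  have hAh := memLp_shift hA h
  have hdh := memLp_shift hd h
  have e0 : (∫ t, a t * a (t + h)) - (∫ t, A t * A (t + h)) =
      (∫ t, (a t - A t) * a (t + h)) + ∫ t, (a (t + h) - A (t + h)) * A t := by
    have i1 : Integrable (fun t => a t * a (t + h)) := ha.integrable_mul hah
    have i2 : Integrable (fun t => A t * A (t + h)) := hA.integrable_mul hAh
    have i3 : Integrable (fun t => (a t - A t) * a (t + h)) := hd.integrable_mul hah
    have i4 : Integrable (fun t => (a (t + h) - A (t + h)) * A t) := hdh.integrable_mul hA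
    rw [← integral_sub i1 i2, ← integral_add i3 i4]
    congr 1
    ext t
    ring
  have b1 := amgm hd hah hM
  have b2 := amgm hdh hA hM
  rw [sq_shift] at b1
  have b2' : |∫ t, (a (t + h) - A (t + h)) * A t| ≤
      (M * (∫ t, (a t - A t) ^ 2) + (∫ t, A t ^ 2) / M) / 2 := by
    have := sq_shift (fun t => a t - A t) h
    rw [this] at b2
    exact b2
  have b3 : (∫ t, a t ^ 2) ≤ 2 * (∫ t, A t ^ 2) + 2 * ∫ t, (a t - A t) ^ 2 := by
    rw [← integral_const_mul, ← integral_const_mul,
      ← integral_add (hA.integrable_sq.const_mul 2) (hd.integrable_sq.const_mul 2)]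
    apply integral_mono ha.integrable_sq
      ((hA.integrable_sq.const_mul 2).add (hd.integrable_sq.const_mul 2))
    intro t
    change a t ^ 2 ≤ 2 * A t ^ 2 + 2 * (a t - A t) ^ 2
    nlinarith [sq_nonneg (a t - 2 * A t)]
  rw [e0]
  calc |(∫ t, (a t - A t) * a (t + h)) + ∫ t, (a (t + h) - A (t + h)) * A t|
      ≤ |∫ t, (a t - A t) * a (t + h)| + |∫ t, (a (t + h) - A (t + h)) * A t| := abs_add_le _ _
    _ ≤ (M * (∫ t, (a t - A t) ^ 2) + (∫ t, a t ^ 2) / M) / 2 +
        (M * (∫ t, (a t - A t) ^ 2) + (∫ t, A t ^ 2) / M) / 2 := add_le_add b1 b2'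
    _ ≤ (M * (∫ t, (a t - A t) ^ 2) + (2 * (∫ t, A t ^ 2) + 2 * ∫ t, (a t - A t) ^ 2) / M) / 2 +
        (M * (∫ t, (a t - A t) ^ 2) + (∫ t, A t ^ 2) / M) / 2 := by gcongr
    _ = M * (∫ t, (a t - A t) ^ 2) + (3 * (∫ t, A t ^ 2) + 2 * ∫ t, (a t - A t) ^ 2) / (2 * M) := by
        field_simp
        ring

/-- the second moment on a small set -/
lemma small {g : ℝ → ℝ} (hg : MemLp g 2 volume) (hg4 : Integrable (fun t => g t ^ 4)) {Q : ℝ}
    (hQ : (∫ t, g t ^ 4) ≤ Q) {a b δ : ℝ} (hab : a ≤ b) (hδ : 0 < δ) :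
    (∫ t in Icc a b, g t ^ 2) ≤ (δ * Q + (b - a) / δ) / 2 := by
  have h1 : (∫ t in Icc a b, g t ^ 2) ≤ ∫ t in Icc a b, (δ * g t ^ 4 + 1 / δ) / 2 := by
    apply setIntegral_mono hg.integrable_sq.integrableOn
    · exact (((hg4.integrableOn).const_mul δ).add (integrableOn_const (by simp) (by simp))).div_const 2
    · intro t
      have h4 : δ * g t ^ 4 + 1 / δ - 2 * g t ^ 2 = (δ * g t ^ 2 - 1) ^ 2 / δ := by
        field_simp
        ring
      have h5 : 0 ≤ (δ * g t ^ 2 - 1) ^ 2 / δ := by positivity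
      simp only
      linarith
  refine h1.trans ?_
  rw [integral_div, integral_add (hg4.integrableOn.const_mul δ) (integrableOn_const (by simp) (by simp)),
    integral_const_mul, setIntegral_const, smul_eq_mul]
  have h2 : (∫ t in Icc a b, g t ^ 4) ≤ Q :=
    (setIntegral_le_integral hg4 (ae_of_all _ fun t => by positivity)).trans hQ
  have h3 : volume.real (Icc a b) = b - a := by
    rw [Measure.real, Real.volume_Icc, ENNReal.toReal_ofReal (by linarith)]
  rw [h3]
  have : δ * (∫ t in Icc a b, g t ^ 4) ≤ δ * Q := by gcongr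
  have h4 : (b - a) * (1 / δ) = (b - a) / δ := by ring
  rw [h4]
  linarith

/-- a pointwise bound for `K` -/
lemma K_sq_bound {f : ℝ → ℝ} (hf : MemLp f 2 volume) {t B : ℝ}
    (h : ∀ y, t - 1 / 2 ≤ y → y ≤ t + 1 / 2 → f y ^ 2 ≤ B) : K f t ^ 2 ≤ B := by
  refine (K_sq_le hf t).trans ?_
  have h1 : Integrable (fun y => f (t - y) ^ 2) nu := (memLp_fib hf t).integrable_sq
  have h2 : (∫ y, f (t - y) ^ 2 ∂nu) ≤ ∫ _y, B ∂nu := by
    apply integral_mono_ae h1 (integrable_const _)
    unfold nu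
    filter_upwards [ae_restrict_mem measurableSet_Ioc] with y hy
    exact h _ (by linarith [hy.2]) (by linarith [hy.1])
  simpa using h2

/-- `K s` is bounded by the second moment -/
lemma K_sq_bound' {f : ℝ → ℝ} (hf : MemLp f 2 volume) {t a b : ℝ}
    (ha : a ≤ t - 1 / 2) (hb : t + 1 / 2 ≤ b) : K f t ^ 2 ≤ ∫ y in Icc a b, f y ^ 2 := by
  refine (K_sq_le hf t).trans ?_
  unfold nu
  rw [← intervalIntegral.integral_of_le (by norm_num)]
  have h := intervalIntegral.integral_comp_sub_left (a := -(1 / 2 : ℝ)) (b := 1 / 2)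
    (fun y => f y ^ 2) t
  rw [h, intervalIntegral.integral_of_le (by linarith)]
  apply setIntegral_mono_set hf.integrable_sq.integrableOn (ae_of_all _ fun t => sq_nonneg _)
  refine ae_of_all _ ?_
  intro y hy
  exact ⟨by linarith [hy.1], by linarith [hy.2]⟩

end

end Pool.Agent.U946.MV2
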