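import Pool.Agent.U946.MV2.A3

set_option autoImplicit false

namespace Pool.Agent.U946.MV2

open MeasureTheory Filter Topology Set
open scoped ENNReal

noncomputable section

lemma memLp_of_bdd {A : ℝ → ℝ} {a b B : ℝ} (hAm : Measurable A) (hAb : ∀ t, |A t| ≤ B)
    (hA0 : ∀ t, t < a ∨ b < t → A t = 0) : MemLp A 2 volume := by
  have h1 : A = (Icc a b).indicator A := by
    ext t
    by_cases ht : t ∈ Icc a b
    · rw [indicator_of_mem ht]
    · rw [indicator_of_notMem ht]
      apply hA0
      by_contra h
      push Not at h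
      exact ht ⟨h.1, h.2⟩
  rw [h1, memLp_indicator_iff_restrict measurableSet_Icc]
  exact MemLp.of_bound hAm.aestronglyMeasurable B (ae_of_all _ hAb)

/-- the missing part at the right end -/
lemma D0 {C1 T L h : ℝ} (hC1 : 1 ≤ C1) (hL : 2 ≤ L) (hT : 100 ≤ T) (h0 : 0 ≤ h)
    (hh : h ≤ T / L ^ 2) {g : ℝ → ℝ} (hg : MemLp g 2 volume) 
    (hg4 : Integrable (fun t => g t ^ 4)) (hQ : (∫ t, g t ^ 4) ≤ C1 * (T * L)) :
    |(∫ t in T..(2 * T), g t * g (t + h)) -
      ∫ t, (Icc T (2 * T)).indicator g t * (Icc T (2 * T)).indicator g (t + h)| ≤ C1 * T := by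
  set s := (Icc T (2 * T)).indicator g with hs
  set f1 := (Ioc (2 * T - h) (2 * T)).indicator g with hf1
  set f2 := (Ioc (2 * T) (2 * T + h)).indicator g with hf2
  have hsm : MemLp s 2 volume := hg.indicator measurableSet_Icc
  have hf1m : MemLp f1 2 volume := hg.indicator measurableSet_Ioc
  have hf2m : MemLp f2 2 volume := hg.indicator measurableSet_Ioc
  have hhT : h ≤ T := by
    refine hh.trans (div_le_self (by linarith) ?_)
    nlinarith
  have e1 : (∫ t in T..(2 * T), g t * g (t + h)) = ∫ t, s t * g (t + h) := by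
    rw [intervalIntegral.integral_of_le (by linarith), ← integral_Icc_eq_integral_Ioc,
      ← integral_indicator measurableSet_Icc]
    congr 1
    ext t
    by_cases ht : t ∈ Icc T (2 * T)
    · rw [indicator_of_mem ht, hs, indicator_of_mem ht]
    · rw [indicator_of_notMem ht, hs, indicator_of_notMem ht, zero_mul]
  have e2 : (∫ t, s t * g (t + h)) - (∫ t, s t * s (t + h)) = ∫ t, f1 t * f2 (t + h) := by
    have i1 : Integrable (fun t => s t * g (t + h)) := hsm.integrable_mul (memLp_shift hg h)
    have i2 : Integrable (fun t => s t * s (t + h)) := hsm.integrable_mul (memLp_shift hsm h)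
    rw [← integral_sub i1 i2]
    congr 1
    ext t
    by_cases ht : t ∈ Icc T (2 * T)
    · by_cases ht2 : t + h ≤ 2 * T
      · have a1 : t + h ∈ Icc T (2 * T) := ⟨by linarith [ht.1], ht2⟩
        have a2 : t ∉ Ioc (2 * T - h) (2 * T) := fun h' => by linarith [h'.1]
        rw [hs, hf1, indicator_of_mem ht, indicator_of_mem a1, indicator_of_notMem a2]
        ring
      · push Not at ht2
        have a1 : t + h ∉ Icc T (2 * T) := fun h' => by linarith [h'.2]
        have a2 : t ∈ Ioc (2 * T - h) (2 * T) := ⟨by linarith, ht.2⟩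
        have a3 : t + h ∈ Ioc (2 * T) (2 * T + h) := ⟨ht2, by linarith [ht.2]⟩
        rw [hs, hf1, hf2, indicator_of_mem ht, indicator_of_notMem a1, indicator_of_mem a2,
          indicator_of_mem a3]
        ring
    · have a2 : t ∉ Ioc (2 * T - h) (2 * T) := fun h' => ht ⟨by linarith [h'.1], h'.2⟩
      rw [hs, hf1, indicator_of_notMem ht, indicator_of_notMem a2]
      ring
  rw [e1, e2]
  have b1 := amgm hf1m (memLp_shift hf2m h) one_pos
  rw [sq_shift] at b1
  have hδ : 0 < 1 / L := by positivity
  have hLpos : 0 < L := by linarith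
  have c0 : h * L ≤ T / 2 := by
    have : h * L ≤ T / L ^ 2 * L := by gcongr
    have h2 : T / L ^ 2 * L = T / L := by field_simp
    have h3 : T / L ≤ T / 2 := by gcongr
    linarith
  have c1 : (∫ t, f1 t ^ 2) ≤ C1 * T := by
    have : (∫ t, f1 t ^ 2) ≤ ∫ t in Icc (2 * T - h) (2 * T), g t ^ 2 := by
      rw [← integral_indicator measurableSet_Icc]
      apply integral_mono hf1m.integrable_sq (hg.integrable_sq.indicator measurableSet_Icc)
      intro t
      change f1 t ^ 2 ≤ _
      by_cases ht : t ∈ Ioc (2 * T - h) (2 * T)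
      · rw [hf1, indicator_of_mem ht, indicator_of_mem (Ioc_subset_Icc_self ht)]
      · rw [hf1, indicator_of_notMem ht]
        have : 0 ≤ (Icc (2 * T - h) (2 * T)).indicator (fun t => g t ^ 2) t :=
          indicator_nonneg (fun _ _ => sq_nonneg _) _
        simpa using this
    refine this.trans ((small hg hg4 hQ (by linarith) hδ).trans ?_)
    have : (1 / L * (C1 * (T * L)) + (2 * T - (2 * T - h)) / (1 / L)) / 2 =
        (C1 * T + h * L) / 2 := by
      field_simp
      ring
    rw [this]
    nlinarith
  have c2 : (∫ t, f2 t ^ 2) ≤ C1 * T := by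
    have : (∫ t, f2 t ^ 2) ≤ ∫ t in Icc (2 * T) (2 * T + h), g t ^ 2 := by
      rw [← integral_indicator measurableSet_Icc]
      apply integral_mono hf2m.integrable_sq (hg.integrable_sq.indicator measurableSet_Icc)
      intro t
      change f2 t ^ 2 ≤ _
      by_cases ht : t ∈ Ioc (2 * T) (2 * T + h)
      · rw [hf2, indicator_of_mem ht, indicator_of_mem (Ioc_subset_Icc_self ht)]
      · rw [hf2, indicator_of_notMem ht]
        have : 0 ≤ (Icc (2 * T) (2 * T + h)).indicator (fun t => g t ^ 2) t :=
          indicator_nonneg (fun _ _ => sq_nonneg _) _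
        simpa using this
    refine this.trans ((small hg hg4 hQ (by linarith) hδ).trans ?_)
    have : (1 / L * (C1 * (T * L)) + (2 * T + h - (2 * T)) / (1 / L)) / 2 =
        (C1 * T + h * L) / 2 := by
      field_simp
      ring
    rw [this]
    nlinarith
  linarith

/-- the box average of the truncated function -/
lemma D1 {C1 T L : ℝ} (hC1 : 1 ≤ C1) (hL : 2 ≤ L) (hT : 100 ≤ T) (hLT : L ^ 3 ≤ T)
    {g : ℝ → ℝ} (hg : MemLp g 2 volume) 
    (hg4 : Integrable (fun t => g t ^ 4)) (hQ : (∫ t, g t ^ 4) ≤ C1 * (T * L))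
    (hG : (∫ t in T..(2 * T), K g t ^ 2) ≤ C1 * T) :
    (∫ t, K ((Icc T (2 * T)).indicator g) t ^ 2) ≤ 5 * (C1 * T) := by
  set s := (Icc T (2 * T)).indicator g with hs
  have hsm : MemLp s 2 volume := hg.indicator measurableSet_Icc
  have hsg : ∀ a b : ℝ, (∫ t in Icc a b, s t ^ 2) ≤ ∫ t in Icc a b, g t ^ 2 := by
    intro a b
    apply setIntegral_mono hsm.integrable_sq.integrableOn hg.integrable_sq.integrableOn
    intro t
    change s t ^ 2 ≤ g t ^ 2
    by_cases ht : t ∈ Icc T (2 * T)
    · rw [hs, indicator_of_mem ht]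
    · rw [hs, indicator_of_notMem ht]
      nlinarith [sq_nonneg (g t)]
  have hLpos : 0 < L := by linarith
  have hδ : 0 < 1 / L := by positivity
  have hL2 : 2 * L ≤ T := by nlinarith [sq_nonneg (L - 1), mul_pos hLpos hLpos]
  have he : ∀ a : ℝ, (∫ t in Icc (a - 1) (a + 1), s t ^ 2) ≤ C1 * T := by
    intro a
    refine (hsg _ _).trans ((small hg hg4 hQ (by linarith) hδ).trans ?_)
    have : (1 / L * (C1 * (T * L)) + (a + 1 - (a - 1)) / (1 / L)) / 2 = (C1 * T + 2 * L) / 2 := by
      field_simp
      ring
    rw [this]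
    nlinarith
  have hF := K_memLp hsm
  have hKg := K_memLp hg
  have hle : ∀ t, K s t ^ 2 ≤ (Icc T (2 * T)).indicator (fun t => K g t ^ 2) t +
      (Icc (T - 1) (T + 1)).indicator (fun _ => C1 * T) t +
      (Icc (2 * T - 1) (2 * T + 1)).indicator (fun _ => C1 * T) t := by
    intro t
    have n1 : 0 ≤ (Icc T (2 * T)).indicator (fun t => K g t ^ 2) t :=
      indicator_nonneg (fun _ _ => sq_nonneg _) _
    have n2 : 0 ≤ (Icc (T - 1) (T + 1)).indicator (fun _ => C1 * T) t :=
      indicator_nonneg (fun _ _ => by positivity) _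
    have n3 : 0 ≤ (Icc (2 * T - 1) (2 * T + 1)).indicator (fun _ => C1 * T) t :=
      indicator_nonneg (fun _ _ => by positivity) _
    rcases lt_or_ge t (T - 1 / 2) with h1 | h1
    · have : K s t = 0 := K_zero fun y _ hy => by
        rw [hs, indicator_of_notMem]
        exact fun h => by linarith [h.1]
      rw [this]
      nlinarith
    rcases le_or_gt t (T + 1 / 2) with h2 | h2
    · have := (K_sq_bound' hsm (t := t) (a := T - 1) (b := T + 1) (by linarith) (by linarith)).trans
        (he T)
      rw [indicator_of_mem (show t ∈ Icc (T - 1) (T + 1) from ⟨by linarith, by linarith⟩)]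
      linarith
    rcases lt_or_ge t (2 * T - 1 / 2) with h3 | h3
    · have : K s t = K g t := K_congr fun y h4 h5 => by
        rw [hs, indicator_of_mem]
        exact ⟨by linarith, by linarith⟩
      rw [this, indicator_of_mem (show t ∈ Icc T (2 * T) from ⟨by linarith, by linarith⟩)]
      linarith
    rcases le_or_gt t (2 * T + 1 / 2) with h4 | h4
    · have := (K_sq_bound' hsm (t := t) (a := 2 * T - 1) (b := 2 * T + 1) (by linarith)
        (by linarith)).trans (he (2 * T))
      rw [indicator_of_mem (show t ∈ Icc (2 * T - 1) (2 * T + 1) from ⟨by linarith, by linarith⟩)]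
      linarith
    · have : K s t = 0 := K_zero fun y hy _ => by
        rw [hs, indicator_of_notMem]
        exact fun h => by linarith [h.2]
      rw [this]
      nlinarith
  have i1 : Integrable ((Icc T (2 * T)).indicator (fun t => K g t ^ 2)) :=
    hKg.1.integrable_sq.indicator measurableSet_Icc
  have i2 : Integrable ((Icc (T - 1) (T + 1)).indicator (fun _ => C1 * T)) :=
    (integrable_indicator_iff measurableSet_Icc).2 (integrableOn_const (by simp) enorm_ne_top)
  have i3 : Integrable ((Icc (2 * T - 1) (2 * T + 1)).indicator (fun _ => C1 * T)) :=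
    (integrable_indicator_iff measurableSet_Icc).2 (integrableOn_const (by simp) enorm_ne_top)
  have h1 := integral_mono hF.1.integrable_sq ((i1.add i2).add i3) hle
  have h2 : (∫ t, ((Icc T (2 * T)).indicator (fun t => K g t ^ 2) t +
      (Icc (T - 1) (T + 1)).indicator (fun _ => C1 * T) t +
      (Icc (2 * T - 1) (2 * T + 1)).indicator (fun _ => C1 * T) t)) =
      (∫ t in T..(2 * T), K g t ^ 2) + 2 * (C1 * T) + 2 * (C1 * T) := by
    have e1 := integral_add (i1.add i2) i3
    have e2 := integral_add i1 i2
    simp only [Pi.add_apply] at e1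
    rw [e1, e2, integral_indicator measurableSet_Icc, integral_indicator measurableSet_Icc,
      integral_indicator measurableSet_Icc, setIntegral_const, setIntegral_const,
      intervalIntegral.integral_of_le (by linarith), integral_Icc_eq_integral_Ioc, Measure.real,
      Measure.real, Real.volume_Icc, Real.volume_Icc, ENNReal.toReal_ofReal (by linarith),
      ENNReal.toReal_ofReal (by linarith)]
    simp only [smul_eq_mul]
    ring
  have h3 : (∫ t, K s t ^ 2) ≤ (∫ t in T..(2 * T), K g t ^ 2) + 2 * (C1 * T) + 2 * (C1 * T) := by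
    rw [← h2]
    exact h1
  linarith

end

end Pool.Agent.U946.MV2
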